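import Pool.Agent.Helper8.UT.Lin

/-!
The weighted indicator `mm S b y = 2 ^ dim (S ∩ F_b) 1(y ⟂ S ∩ F_b)`, where `F_b` is the space of
functionals supported on the columns `≥ b`, and the one step inequalities for it.
-/

set_option autoImplicit false
set_option linter.unusedSectionVars false

namespace Pool.Agent.CutFull.Fix

open Pool.Agent.Helper8.UT Finset Matrix

variable {N : ℕ}

/-- supported on the columns `≥ b` -/
def geS (N b : ℕ) : Submodule (ZMod 2) (VV N) where
  carrier := {f | ∀ j : Fin N, j.val < b → f j = 0}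
  add_mem' := by
    intro f g hf hg j hj
    rw [Pi.add_apply, hf j hj, hg j hj, add_zero]
  zero_mem' := fun _ _ => rfl
  smul_mem' := by
    intro c f hf j hj
    rw [Pi.smul_apply, hf j hj, smul_zero]

/-- supported on the columns `< b` -/
def ltS (N b : ℕ) : Submodule (ZMod 2) (VV N) where
  carrier := {f | ∀ j : Fin N, b ≤ j.val → f j = 0}
  add_mem' := by
    intro f g hf hg j hj
    rw [Pi.add_apply, hf j hj, hg j hj, add_zero]
  zero_mem' := fun _ _ => rfl
  smul_mem' := by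
    intro c f hf j hj
    rw [Pi.smul_apply, hf j hj, smul_zero]

theorem mem_geS {b : ℕ} {f : VV N} : f ∈ geS N b ↔ ∀ j : Fin N, j.val < b → f j = 0 := Iff.rfl
theorem mem_ltS {b : ℕ} {f : VV N} : f ∈ ltS N b ↔ ∀ j : Fin N, b ≤ j.val → f j = 0 := Iff.rfl

theorem ltS_mono {a b : ℕ} (h : a ≤ b) : ltS N a ≤ ltS N b := fun _ hf j hj => hf j (h.trans hj)

theorem geS_inf_ltS {b : ℕ} {f : VV N} (h1 : f ∈ geS N b) (h2 : f ∈ ltS N b) : f = 0 := by
  funext j
  rcases lt_or_ge j.val b with h | h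
  · exact h1 j h
  · exact h2 j h

theorem dot_ge_lt {b : ℕ} {f y : VV N} (hf : f ∈ ltS N b) (hy : y ∈ geS N b) : f ⬝ᵥ y = 0 := by
  unfold dotProduct
  refine Finset.sum_eq_zero fun j _ => ?_
  rcases lt_or_ge j.val b with h | h
  · rw [hy j h, mul_zero]
  · rw [hf j h, zero_mul]

theorem neg_eq2 (x : VV N) : -x = x := by
  have h := add_self2 x
  exact neg_eq_of_add_eq_zero_left h

theorem sub_eq2 (x y : VV N) : x - y = x + y := by
  rw [sub_eq_add_neg, neg_eq2]

theorem add_cancel2 (x y : VV N) : x + y + y = x := by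
  rw [add_assoc, add_self2, add_zero]

open Classical in
/-- character sum over `S ∩ F_b` -/
noncomputable def mm (S : Submodule (ZMod 2) (VV N)) (b : ℕ) (y : VV N) : ℝ :=
  ∑ f : VV N, if f ∈ S ∧ f ∈ geS N b then chi (f ⬝ᵥ y) else 0

open Classical in
theorem mm_eq_filter (S : Submodule (ZMod 2) (VV N)) (b : ℕ) (y : VV N) :
    mm S b y = ∑ f ∈ Finset.univ.filter (fun f : VV N => f ∈ S ∧ f ∈ geS N b), chi (y ⬝ᵥ f) := by
  unfold mm
  rw [Finset.sum_filter]
  refine Finset.sum_congr rfl fun f _ => ?_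
  rw [dotProduct_comm]

open Classical in
theorem mm_val (S : Submodule (ZMod 2) (VV N)) (b : ℕ) (y : VV N) :
    mm S b y = if (∀ f ∈ S, f ∈ geS N b → f ⬝ᵥ y = 0) then
      (((Finset.univ.filter (fun f : VV N => f ∈ S ∧ f ∈ geS N b)).card : ℕ) : ℝ) else 0 := by
  rw [mm_eq_filter, char_sum]
  · refine if_congr ⟨fun h f h1 h2 => ?_, fun h f hf => ?_⟩ rfl rfl
    · rw [dotProduct_comm]
      exact h f (Finset.mem_filter.2 ⟨Finset.mem_univ _, h1, h2⟩)
    · rw [dotProduct_comm]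
      exact h f (Finset.mem_filter.1 hf).2.1 (Finset.mem_filter.1 hf).2.2
  · refine ⟨Finset.mem_filter.2 ⟨Finset.mem_univ _, S.zero_mem, (geS N b).zero_mem⟩, ?_⟩
    intro x hx z hz
    have hx' := (Finset.mem_filter.1 hx).2
    have hz' := (Finset.mem_filter.1 hz).2
    exact Finset.mem_filter.2 ⟨Finset.mem_univ _, S.add_mem hx'.1 hz'.1,
      (geS N b).add_mem hx'.2 hz'.2⟩

theorem mm_nonneg (S : Submodule (ZMod 2) (VV N)) (b : ℕ) (y : VV N) : 0 ≤ mm S b y := by
  rw [mm_val]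
  split_ifs
  · positivity
  · exact le_refl _

theorem mm_zero {S : Submodule (ZMod 2) (VV N)} {b : ℕ} {y f : VV N} (h1 : f ∈ S)
    (h2 : f ∈ geS N b) (h3 : f ⬝ᵥ y = 1) : mm S b y = 0 := by
  rw [mm_val, if_neg]
  intro h
  have := h f h1 h2
  rw [h3] at this
  exact one_ne_zero this

theorem mm_one {S : Submodule (ZMod 2) (VV N)} {b : ℕ} {y : VV N} (h : S ≤ ltS N b) :
    mm S b y = 1 := by
  classical
  unfold mm
  rw [Finset.sum_eq_single (0 : VV N)]
  · rw [if_pos ⟨S.zero_mem, (geS N b).zero_mem⟩, zero_dotProduct, chi_zero]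
  · intro f _ hf
    rw [if_neg]
    rintro ⟨h1, h2⟩
    exact hf (geS_inf_ltS h2 (h h1))
  · intro h; exact absurd (Finset.mem_univ _) h

/-! the step on functionals -/

/-- unit functional (zero if out of range) -/
def ee (N b : ℕ) : VV N := fun j => if j.val = b then 1 else 0

/-- the functional times the elementary matrix `i` -/
def tau (i : Fin N) : VV N →ₗ[ZMod 2] VV N where
  toFun f := f + f i • ee N (i.val + 1)
  map_add' := by
    intro f g
    rw [Pi.add_apply, add_smul]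
    abel
  map_smul' := by
    intro c f
    rw [Pi.smul_apply, smul_eq_mul, RingHom.id_apply, smul_add, mul_smul]

theorem tau_apply (i : Fin N) (f : VV N) : tau i f = f + f i • ee N (i.val + 1) := rfl

theorem ee_self_ne (i : Fin N) : ee N (i.val + 1) i = 0 := by
  unfold ee
  rw [if_neg]
  omega

theorem tau_i (i : Fin N) (f : VV N) : tau i f i = f i := by
  rw [tau_apply, Pi.add_apply, Pi.smul_apply, ee_self_ne, smul_zero, add_zero]

theorem tau_tau (i : Fin N) (f : VV N) : tau i (tau i f) = f := by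
  rw [tau_apply i (tau i f), tau_i, tau_apply, add_cancel2]

/-- the vector step -/
def xv (i : Fin N) (y : VV N) : VV N := y + Pi.single i (ee N (i.val + 1) ⬝ᵥ y)

theorem tau_dot (i : Fin N) (f y : VV N) : tau i f ⬝ᵥ y = f ⬝ᵥ xv i y := by
  rw [tau_apply, xv, add_dotProduct, dotProduct_add, dotProduct_single, smul_dotProduct,
    smul_eq_mul]

theorem map_tau_tau (i : Fin N) (S : Submodule (ZMod 2) (VV N)) :
    (S.map (tau i)).map (tau i) = S := by
  rw [← Submodule.map_comp]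
  have h2 : (tau i) ∘ₗ (tau i) = LinearMap.id (R := ZMod 2) (M := VV N) :=
    LinearMap.ext fun f => tau_tau i f
  rw [h2, Submodule.map_id]

theorem mem_map_tau {i : Fin N} {S : Submodule (ZMod 2) (VV N)} {f : VV N} :
    tau i f ∈ S.map (tau i) ↔ f ∈ S := by
  constructor
  · rintro ⟨g, hg, h⟩
    have : f = g := by
      rw [← tau_tau i f, ← h, tau_tau]
    rwa [this]
  · intro h; exact ⟨f, h, rfl⟩

theorem mem_sup_tau {i : Fin N} {S Z : Submodule (ZMod 2) (VV N)} {f : VV N} :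
    f ∈ S.map (tau i) ⊔ Z ↔ tau i f ∈ S ⊔ Z.map (tau i) := by
  rw [← mem_map_tau (i := i), Submodule.map_sup, map_tau_tau]

theorem tau_fix_ge {i : Fin N} {b : ℕ} (h : i.val < b) {f : VV N} (hf : f ∈ geS N b) :
    tau i f = f := by
  rw [tau_apply, hf i h, zero_smul, add_zero]

theorem tau_fix_lt {i : Fin N} {b : ℕ} (h : b ≤ i.val) {f : VV N} (hf : f ∈ ltS N b) :
    tau i f = f := by
  rw [tau_apply, hf i h, zero_smul, add_zero]

theorem ee_mem_ge {b c : ℕ} (h : b ≤ c) : ee N c ∈ geS N b := by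
  intro j hj
  unfold ee
  rw [if_neg]
  omega

theorem ee_mem_lt {b c : ℕ} (h : c < b) : ee N c ∈ ltS N b := by
  intro j hj
  unfold ee
  rw [if_neg]
  omega

theorem tau_mem_ge {i : Fin N} {b : ℕ} (h : b ≤ i.val) {f : VV N} :
    tau i f ∈ geS N b ↔ f ∈ geS N b := by
  have h1 : ∀ g : VV N, g ∈ geS N b → tau i g ∈ geS N b := fun g hg => by
    rw [tau_apply]
    exact (geS N b).add_mem hg ((geS N b).smul_mem _ (ee_mem_ge (by omega)))
  exact ⟨fun h2 => by have := h1 _ h2; rwa [tau_tau] at this, h1 f⟩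

theorem map_tau_lt {i : Fin N} {b : ℕ} (h : i.val + 1 < b) {Z : Submodule (ZMod 2) (VV N)}
    (hZ : Z ≤ ltS N b) : Z.map (tau i) ≤ ltS N b := by
  rintro _ ⟨f, hf, rfl⟩
  rw [tau_apply]
  exact (ltS N b).add_mem (hZ hf) ((ltS N b).smul_mem _ (ee_mem_lt h))

theorem map_tau_fix {i : Fin N} {b : ℕ} (h : b ≤ i.val) {Z : Submodule (ZMod 2) (VV N)}
    (hZ : Z ≤ ltS N b) : Z.map (tau i) = Z := by
  ext f
  constructor
  · rintro ⟨g, hg, rfl⟩
    rwa [tau_fix_lt h (hZ hg)]
  · intro hf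
    exact ⟨f, hf, tau_fix_lt h (hZ hf)⟩

/-- letters left of `b` -/
theorem mm_left {i : Fin N} {b : ℕ} (h : i.val < b) (S Z : Submodule (ZMod 2) (VV N)) (y : VV N) :
    mm (S.map (tau i) ⊔ Z) b y = mm (S ⊔ Z.map (tau i)) b y := by
  classical
  unfold mm
  refine Finset.sum_congr rfl fun f _ => ?_
  refine if_congr ⟨fun hf => ⟨?_, hf.2⟩, fun hf => ⟨?_, hf.2⟩⟩ rfl rfl
  · have := mem_sup_tau.1 hf.1
    rwa [tau_fix_ge h hf.2] at this
  · refine mem_sup_tau.2 ?_
    rw [tau_fix_ge h hf.2]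
    exact hf.1

/-- letters right of `b` -/
theorem mm_right {i : Fin N} {b : ℕ} (h : b ≤ i.val) (S : Submodule (ZMod 2) (VV N))
    {Z : Submodule (ZMod 2) (VV N)} (hZ : Z ≤ ltS N b) (y : VV N) :
    mm (S.map (tau i) ⊔ Z) b y = mm (S ⊔ Z) b (xv i y) := by
  classical
  unfold mm
  refine Finset.sum_nbij' (fun f => tau i f) (fun f => tau i f) (fun _ _ => Finset.mem_univ _)
    (fun _ _ => Finset.mem_univ _) (fun f _ => tau_tau i f) (fun f _ => tau_tau i f) ?_
  intro f _
  rw [← tau_dot, tau_tau]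
  refine if_congr ?_ rfl rfl
  rw [mem_sup_tau, map_tau_fix h hZ, tau_mem_ge h]

/-- the critical letter: the first coordinate of `y` is refreshed -/
theorem mm_crit {b : ℕ} (hb : b < N) (S : Submodule (ZMod 2) (VV N)) (y : VV N) :
    mm S b y + mm S b (y + Pi.single ⟨b, hb⟩ 1) =
      2 * mm S (b + 1) (y + Pi.single ⟨b, hb⟩ 1) := by
  classical
  unfold mm
  rw [← Finset.sum_add_distrib, Finset.mul_sum]
  refine Finset.sum_congr rfl fun f _ => ?_
  have hd : f ⬝ᵥ (y + Pi.single ⟨b, hb⟩ 1) = f ⬝ᵥ y + f ⟨b, hb⟩ := by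
    rw [dotProduct_add, dotProduct_single, mul_one]
  rw [hd]
  by_cases h1 : f ∈ S ∧ f ∈ geS N b
  · rw [if_pos h1, if_pos h1, chi_add]
    rcases zmod2_cases (f ⟨b, hb⟩) with h2 | h2
    · have h3 : f ∈ S ∧ f ∈ geS N (b + 1) := by
        refine ⟨h1.1, fun j hj => ?_⟩
        rcases Nat.lt_succ_iff_lt_or_eq.1 hj with h4 | h4
        · exact h1.2 j h4
        · have : j = ⟨b, hb⟩ := Fin.ext h4
          rw [this, h2]
      rw [if_pos h3, h2, chi_zero]
      ring
    · have h3 : ¬ (f ∈ S ∧ f ∈ geS N (b + 1)) := by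
        rintro ⟨_, h4⟩
        have := h4 ⟨b, hb⟩ (Nat.lt_succ_self b)
        rw [h2] at this
        exact one_ne_zero this
      rw [if_neg h3, h2]
      have : chi 1 = -1 := by simp [chi]
      rw [this]
      ring
  · have h3 : ¬ (f ∈ S ∧ f ∈ geS N (b + 1)) := by
      rintro ⟨h4, h5⟩
      exact h1 ⟨h4, fun j hj => h5 j (by omega)⟩
    rw [if_neg h1, if_neg h1, if_neg h3]
    ring

theorem mem_sup_span {R : Submodule (ZMod 2) (VV N)} {u f : VV N} :
    f ∈ R ⊔ Submodule.span (ZMod 2) {u} ↔ f ∈ R ∨ f + u ∈ R := by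
  rw [Submodule.mem_sup]
  constructor
  · rintro ⟨r, hr, s, hs, rfl⟩
    obtain ⟨c, rfl⟩ := Submodule.mem_span_singleton.1 hs
    rcases zmod2_cases c with rfl | rfl
    · left; rwa [zero_smul, add_zero]
    · right; rwa [one_smul, add_cancel2]
  · rintro (h | h)
    · exact ⟨f, h, 0, Submodule.zero_mem _, add_zero _⟩
    · exact ⟨f + u, h, u, Submodule.mem_span_singleton_self u, add_cancel2 _ _⟩

open Classical in
theorem mm_split {R : Submodule (ZMod 2) (VV N)} {u : VV N} (hu : u ∉ R) (b : ℕ) (y : VV N) :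
    mm (R ⊔ Submodule.span (ZMod 2) {u}) b y =
      mm R b y + ∑ f : VV N, if f + u ∈ R ∧ f ∈ geS N b then chi (f ⬝ᵥ y) else 0 := by
  unfold mm
  rw [← Finset.sum_add_distrib]
  refine Finset.sum_congr rfl fun f _ => ?_
  rw [mem_sup_span]
  by_cases h1 : f ∈ R
  · have h2 : f + u ∉ R := fun h => hu (by
      have := R.add_mem h1 h
      rwa [← add_assoc, add_self2, zero_add] at this)
    by_cases h3 : f ∈ geS N b
    · rw [if_pos ⟨Or.inl h1, h3⟩, if_pos ⟨h1, h3⟩, if_neg (fun h => h2 h.1), add_zero]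
    · rw [if_neg (fun h => h3 h.2), if_neg (fun h => h3 h.2), if_neg (fun h => h3 h.2), add_zero]
  · by_cases h3 : f + u ∈ R ∧ f ∈ geS N b
    · rw [if_pos ⟨Or.inr h3.1, h3.2⟩, if_neg (fun h => h1 h.1), if_pos h3, zero_add]
    · rw [if_neg, if_neg (fun h => h1 h.1), if_neg h3, add_zero]
      rintro ⟨h4 | h4, h5⟩
      · exact h1 h4
      · exact h3 ⟨h4, h5⟩

/-- the inequality for the letter just left of `b` -/
theorem mm_pair (R : Submodule (ZMod 2) (VV N)) (v : VV N) {b : ℕ} {y : VV N}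
    (hy : ee N b ⬝ᵥ y = 1) :
    mm (R ⊔ Submodule.span (ZMod 2) {v}) b y +
      mm (R ⊔ Submodule.span (ZMod 2) {v + ee N b}) b y ≤ 2 * mm R b y := by
  classical
  have hmem : ∀ u : VV N, u ∈ R → R ⊔ Submodule.span (ZMod 2) {u} = R := by
    intro u hu
    rw [sup_eq_left, Submodule.span_singleton_le_iff_mem]
    exact hu
  have hz : ∀ u : VV N, u ∈ R → mm (R ⊔ Submodule.span (ZMod 2) {u + ee N b}) b y = 0 := by
    intro u hu
    refine mm_zero (f := ee N b) ?_ (ee_mem_ge le_rfl) hy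
    rw [mem_sup_span]
    right
    have : ee N b + (u + ee N b) = u := by
      rw [add_comm u, ← add_assoc, add_self2, zero_add]
    rwa [this]
  have h0 := mm_nonneg R b y
  by_cases h1 : v ∈ R
  · rw [hmem v h1, hz v h1]
    linarith
  by_cases h2 : v + ee N b ∈ R
  · have h3 := hz _ h2
    rw [add_cancel2] at h3
    rw [h3, hmem _ h2]
    linarith
  rw [mm_split h1, mm_split h2]
  have h4 : (∑ f : VV N, if f + (v + ee N b) ∈ R ∧ f ∈ geS N b then chi (f ⬝ᵥ y) else 0) =
      - ∑ f : VV N, if f + v ∈ R ∧ f ∈ geS N b then chi (f ⬝ᵥ y) else 0 := by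
    rw [← Finset.sum_neg_distrib]
    refine Finset.sum_nbij' (fun f => f + ee N b) (fun f => f + ee N b)
      (fun _ _ => Finset.mem_univ _) (fun _ _ => Finset.mem_univ _)
      (fun f _ => add_cancel2 f _) (fun f _ => add_cancel2 f _) ?_
    intro f _
    rw [add_dotProduct, hy, chi_add]
    have h5 : f + ee N b + v = f + (v + ee N b) := by abel
    have h6 : f + ee N b ∈ geS N b ↔ f ∈ geS N b := by
      constructor
      · intro h
        have := (geS N b).add_mem h (ee_mem_ge (N := N) (b := b) (c := b) le_rfl)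
        rwa [add_cancel2] at this
      · intro h
        exact (geS N b).add_mem h (ee_mem_ge le_rfl)
    rw [h5, h6]
    have : chi 1 = -1 := by simp [chi]
    rw [this]
    split_ifs
    · ring
    · ring
  rw [h4]
  linarith

end Pool.Agent.CutFull.Fix
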