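import Pool.Agent.Helper8.UT.Semi

/-!
Duality between left and right steps of a jump process, and the comparison principle by a family of
functions that is closed under one right step ('induction on the first letter').
-/

set_option autoImplicit false
set_option linter.unusedSectionVars false

namespace Pool.Agent.CutFull.Fix

open Pool.Agent.Helper8.UT Finset

section

variable {X κ ι D : Type*} [Fintype X] [Fintype κ] [Fintype ι]

theorem gen_comm' {L R : κ → X → X} (hc : ∀ k l x, L k (R l x) = R l (L k x)) (f : X → ℝ) :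
    gen L (gen R f) = gen R (gen L f) := by
  funext x
  unfold gen
  simp only [Finset.mul_sum, ← Finset.sum_sub_distrib]
  rw [Finset.sum_comm]
  refine Finset.sum_congr rfl fun i _ => Finset.sum_congr rfl fun j _ => ?_
  rw [hc]
  ring

theorem gen_iter_comm' {L R : κ → X → X} (hc : ∀ k l x, L k (R l x) = R l (L k x)) (k : ℕ)
    (f : X → ℝ) : gen R ((gen L)^[k] f) = (gen L)^[k] (gen R f) := by
  induction k with
  | zero => rfl
  | succ k ih =>
    rw [Function.iterate_succ_apply', Function.iterate_succ_apply', ← ih, gen_comm' hc]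

theorem iter_base {L R : κ → X → X} (hc : ∀ k l x, L k (R l x) = R l (L k x)) {x₀ : X}
    (h0 : ∀ l, L l x₀ = R l x₀) (k : ℕ) :
    ∀ f : X → ℝ, (gen L)^[k] f x₀ = (gen R)^[k] f x₀ := by
  have h1 : ∀ f : X → ℝ, gen L f x₀ = gen R f x₀ := by
    intro f
    unfold gen
    congr 1
    exact Finset.sum_congr rfl fun l _ => by rw [h0 l]
  induction k with
  | zero => intro f; rfl
  | succ k ih =>
    intro f
    rw [Function.iterate_succ_apply', h1, gen_iter_comm' hc, ih, Function.iterate_succ_apply]

/-- left and right semigroups agree at the base point -/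
theorem Sg_left_right {L R : κ → X → X} (hc : ∀ k l x, L k (R l x) = R l (L k x)) {x₀ : X}
    (h0 : ∀ l, L l x₀ = R l x₀) (t : ℝ) (f : X → ℝ) : Sg L t f x₀ = Sg R t f x₀ := by
  have := Sg_eq_of_iter L R f f x₀ x₀ 1 t (fun k => by rw [one_mul]; exact iter_base hc h0 k f)
  rw [this, one_mul]

/-- the sum over the letters of the averages over the coin -/
noncomputable def PP (R : ι × Bool → X → X) (f : X → ℝ) : X → ℝ :=
  fun x => ∑ i, (f (R (i, false) x) + f (R (i, true) x)) / 2

theorem PP_mono (R : ι × Bool → X → X) {f g : X → ℝ} (h : ∀ x, f x ≤ g x) (x : X) :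
    PP R f x ≤ PP R g x :=
  Finset.sum_le_sum fun i _ => by linarith [h (R (i, false) x), h (R (i, true) x)]

theorem PP_iter_mono (R : ι × Bool → X → X) (k : ℕ) : ∀ {f g : X → ℝ}, (∀ x, f x ≤ g x) →
    ∀ x, (PP R)^[k] f x ≤ (PP R)^[k] g x := by
  induction k with
  | zero => intro f g h x; exact h x
  | succ k ih =>
    intro f g h x
    rw [Function.iterate_succ_apply, Function.iterate_succ_apply]
    exact ih (fun y => PP_mono R h y) x

theorem PP_sum (R : ι × Bool → X → X) {α : Type*} (s : Finset α) (f : α → X → ℝ) :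
    PP R (fun x => ∑ a ∈ s, f a x) = fun x => ∑ a ∈ s, PP R (f a) x := by
  funext x
  unfold PP
  rw [Finset.sum_comm]
  refine Finset.sum_congr rfl fun i _ => ?_
  rw [← Finset.sum_add_distrib, Finset.sum_div]

theorem PP_iter_sum (R : ι × Bool → X → X) {α : Type*} (s : Finset α) (k : ℕ) :
    ∀ f : α → X → ℝ, (PP R)^[k] (fun x => ∑ a ∈ s, f a x) =
      fun x => ∑ a ∈ s, (PP R)^[k] (f a) x := by
  induction k with
  | zero => intro f; rfl
  | succ k ih =>
    intro f
    rw [Function.iterate_succ_apply, PP_sum, ih]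
    rfl

theorem PP_half (R : ι × Bool → X → X) (f g : X → ℝ) :
    PP R (fun x => (f x + g x) / 2) = fun x => (PP R f x + PP R g x) / 2 := by
  funext x
  unfold PP
  rw [← Finset.sum_add_distrib, Finset.sum_div]
  refine Finset.sum_congr rfl fun i _ => ?_
  ring

theorem PP_iter_half (R : ι × Bool → X → X) (k : ℕ) : ∀ f g : X → ℝ,
    (PP R)^[k] (fun x => (f x + g x) / 2) = fun x => ((PP R)^[k] f x + (PP R)^[k] g x) / 2 := by
  induction k with
  | zero => intro f g; rfl
  | succ k ih =>
    intro f g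
    rw [Function.iterate_succ_apply, PP_half, ih]
    rfl

/-- a family of functions closed under one right step is bounded at the base point -/
theorem PP_family {R : ι × Bool → X → X} {h : D → X → ℝ} {x₀ : X} (h0 : ∀ d, h d x₀ ≤ 1)
    (hstep : ∀ d i, ∃ d₁ d₂, ∀ x,
      h d (R (i, false) x) + h d (R (i, true) x) ≤ h d₁ x + h d₂ x) (k : ℕ) :
    ∀ d, (PP R)^[k] (h d) x₀ ≤ (Fintype.card ι : ℝ) ^ k := by
  induction k with
  | zero => intro d; simpa using h0 d
  | succ k ih =>
    intro d
    choose d₁ d₂ hd using hstep d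
    rw [Function.iterate_succ_apply]
    have h1 : ∀ x, PP R (h d) x ≤ ∑ i, (h (d₁ i) x + h (d₂ i) x) / 2 := fun x =>
      Finset.sum_le_sum fun i _ => by linarith [hd i x]
    refine (PP_iter_mono R k h1 x₀).trans ?_
    rw [PP_iter_sum]
    have h2 : ∀ i ∈ (Finset.univ : Finset ι),
        (PP R)^[k] (fun x => (h (d₁ i) x + h (d₂ i) x) / 2) x₀ ≤ (Fintype.card ι : ℝ) ^ k := by
      intro i _
      rw [PP_iter_half]
      have := ih (d₁ i)
      have := ih (d₂ i)
      dsimp only
      linarith
    refine (Finset.sum_le_sum h2).trans ?_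
    rw [Finset.sum_const, Finset.card_univ, nsmul_eq_mul, pow_succ, mul_comm]

theorem gen_shift (R : ι × Bool → X → X) :
    (fun g : X → ℝ => gen R g + (Fintype.card ι : ℝ) • g) = PP R := by
  funext g x
  simp only [Pi.add_apply, Pi.smul_apply, smul_eq_mul]
  unfold gen PP
  rw [Fintype.sum_prod_type, Finset.mul_sum]
  have h1 : (Fintype.card ι : ℝ) * g x = ∑ _i : ι, g x := by
    rw [Finset.sum_const, Finset.card_univ, nsmul_eq_mul]
  rw [h1, ← Finset.sum_add_distrib]
  refine Finset.sum_congr rfl fun i _ => ?_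
  rw [Fintype.sum_bool]
  ring

/-- the comparison principle in continuous time -/
theorem Sg_family {R : ι × Bool → X → X} {h : D → X → ℝ} {x₀ : X} (h0 : ∀ d, h d x₀ ≤ 1)
    (hstep : ∀ d i, ∃ d₁ d₂, ∀ x,
      h d (R (i, false) x) + h d (R (i, true) x) ≤ h d₁ x + h d₂ x) {t : ℝ} (ht : 0 ≤ t) (d : D) :
    Sg R t (h d) x₀ ≤ 1 := by
  have h1 := Sg_series R (Fintype.card ι : ℝ) t (h d) x₀
  rw [gen_shift] at h1
  set c : ℝ := (Fintype.card ι : ℝ) with hc
  have h2 : HasSum (fun k : ℕ => Real.exp (-(c * t)) * ((c * t) ^ k / (k.factorial : ℝ)))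
      (Real.exp (-(c * t)) * Real.exp (c * t)) := by
    have h3 := NormedSpace.expSeries_div_hasSum_exp (𝔸 := ℝ) (c * t)
    rw [← Real.exp_eq_exp_ℝ] at h3
    exact h3.mul_left _
  rw [← Real.exp_add, neg_add_cancel, Real.exp_zero] at h2
  refine hasSum_le (fun k => ?_) h1 h2
  have h4 := PP_family h0 hstep k d
  have h5 : (0 : ℝ) ≤ t ^ k / (k.factorial : ℝ) := by positivity
  have h6 : t ^ k / (k.factorial : ℝ) * (PP R)^[k] (h d) x₀ ≤ t ^ k / (k.factorial : ℝ) * c ^ k :=
    mul_le_mul_of_nonneg_left h4 h5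
  have h7 : t ^ k / (k.factorial : ℝ) * c ^ k = (c * t) ^ k / (k.factorial : ℝ) := by
    rw [mul_pow]; ring
  rw [h7] at h6
  exact mul_le_mul_of_nonneg_left h6 (Real.exp_pos _).le

/-! words -/

/-- expectation over the fair coins of a word, the first letter acting first -/
noncomputable def wE (L : ι × Bool → X → X) : List ι → (X → ℝ) → X → ℝ
  | [], F, x => F x
  | i :: W, F, x => (wE L W F (L (i, false) x) + wE L W F (L (i, true) x)) / 2

theorem wE_mono (L : ι × Bool → X → X) (W : List ι) : ∀ {f g : X → ℝ}, (∀ x, f x ≤ g x) →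
    ∀ x, wE L W f x ≤ wE L W g x := by
  induction W with
  | nil => intro f g h x; exact h x
  | cons i W ih =>
    intro f g h x
    have h1 := ih h (L (i, false) x)
    have h2 := ih h (L (i, true) x)
    simp only [wE]
    linarith

theorem wE_add (L : ι × Bool → X → X) (W : List ι) : ∀ (f g : X → ℝ) (x : X),
    wE L W (fun y => f y + g y) x = wE L W f x + wE L W g x := by
  induction W with
  | nil => intro f g x; rfl
  | cons i W ih =>
    intro f g x
    simp only [wE]
    rw [ih, ih]
    ring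

theorem wE_comm {L R : ι × Bool → X → X} (hc : ∀ k l x, L k (R l x) = R l (L k x)) (W : List ι)
    (l : ι × Bool) : ∀ (F : X → ℝ) (x : X), wE L W F (R l x) = wE L W (fun y => F (R l y)) x := by
  induction W with
  | nil => intro F x; rfl
  | cons i W ih =>
    intro F x
    simp only [wE]
    rw [hc, hc, ih, ih]

/-- the comparison principle for every word -/
theorem wE_family {L R : ι × Bool → X → X} (hc : ∀ k l x, L k (R l x) = R l (L k x)) {x₀ : X}
    (hx : ∀ l, L l x₀ = R l x₀) {h : D → X → ℝ} (h0 : ∀ d, h d x₀ ≤ 1)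
    (hstep : ∀ d i, ∃ d₁ d₂, ∀ x,
      h d (R (i, false) x) + h d (R (i, true) x) ≤ h d₁ x + h d₂ x) (W : List ι) :
    ∀ d, wE L W (h d) x₀ ≤ 1 := by
  induction W with
  | nil => intro d; exact h0 d
  | cons i W ih =>
    intro d
    obtain ⟨d₁, d₂, hd⟩ := hstep d i
    simp only [wE]
    rw [hx, hx, wE_comm hc, wE_comm hc, ← wE_add]
    have h1 := wE_mono L W hd x₀
    rw [wE_add L W (h d₁) (h d₂)] at h1
    have := ih d₁
    have := ih d₂
    linarith

end

end Pool.Agent.CutFull.Fix
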