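import Pool.Agent.CutFull.Fix.Core

/-!
The family `mm (S ⊔ Z) b y` (with `Z` supported on the columns `< b` and `y` starting exactly at `b`)
is closed under one right step.
-/

set_option autoImplicit false
set_option linter.unusedSectionVars false

namespace Pool.Agent.CutFull.Fix

open Pool.Agent.Helper8.UT Finset Matrix

variable {N : ℕ}

/-- admissible data -/
def Val (Z : Submodule (ZMod 2) (VV N)) (b : ℕ) (y : VV N) : Prop :=
  Z ≤ ltS N b ∧ y ∈ geS N b ∧ ee N b ⬝ᵥ y = 1

theorem ee_dot {c : ℕ} (hc : c < N) (y : VV N) : ee N c ⬝ᵥ y = y ⟨c, hc⟩ := by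
  have : ee N c = Pi.single (⟨c, hc⟩ : Fin N) 1 := by
    funext j
    unfold ee
    by_cases h : j.val = c
    · have : j = ⟨c, hc⟩ := Fin.ext h
      rw [if_pos h, this, Pi.single_eq_same]
    · rw [if_neg h, Pi.single_eq_of_ne]
      intro h2
      exact h (congrArg Fin.val h2)
  rw [this, single_dotProduct, one_mul]

theorem ee_out {c : ℕ} (hc : N ≤ c) : ee N c = 0 := by
  funext j
  unfold ee
  rw [if_neg]
  · rfl
  · have := j.isLt
    omega

theorem Val.lt {Z : Submodule (ZMod 2) (VV N)} {b : ℕ} {y : VV N} (h : Val Z b y) : b < N := by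
  by_contra h1
  have := h.2.2
  rw [ee_out (by omega), zero_dotProduct] at this
  exact one_ne_zero this.symm

theorem val_step {Z : Submodule (ZMod 2) (VV N)} {b : ℕ} {y : VV N} (h : Val Z b y) (i : Fin N) :
    ∃ (Z₁ : Submodule (ZMod 2) (VV N)) (b₁ : ℕ) (y₁ : VV N) (Z₂ : Submodule (ZMod 2) (VV N))
      (b₂ : ℕ) (y₂ : VV N), Val Z₁ b₁ y₁ ∧ b ≤ b₁ ∧ Val Z₂ b₂ y₂ ∧ b ≤ b₂ ∧
      ∀ S : Submodule (ZMod 2) (VV N), mm (S ⊔ Z) b y + mm (S.map (tau i) ⊔ Z) b y ≤
        mm (S ⊔ Z₁) b₁ y₁ + mm (S ⊔ Z₂) b₂ y₂ := by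
  have hbN := h.lt
  obtain ⟨hZ, hy, hyb⟩ := h
  rcases lt_trichotomy (i.val + 1) b with h1 | h1 | h1
  · -- both columns left of `b`
    refine ⟨Z, b, y, Z.map (tau i), b, y, ⟨hZ, hy, hyb⟩, le_rfl, ⟨map_tau_lt h1 hZ, hy, hyb⟩,
      le_rfl, fun S => ?_⟩
    rw [mm_left (by omega)]
  · -- the column `b` receives the column `b - 1`
    by_cases h2 : ∃ v ∈ Z, v i ≠ 0
    · obtain ⟨v, hv, hvi⟩ := h2
      have hvi1 : v i = 1 := zmod2_ne _ hvi
      set Z0 : Submodule (ZMod 2) (VV N) := Z ⊓ ltS N i.val with hZ0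
      have hZ0b : Z0 ≤ ltS N b := inf_le_left.trans hZ
      have hZe : Z = Z0 ⊔ Submodule.span (ZMod 2) {v} := by
        refine le_antisymm (fun f hf => ?_) (sup_le inf_le_left ?_)
        · rw [mem_sup_span]
          have hlow : ∀ g ∈ Z, g i = 0 → g ∈ Z0 := by
            intro g hg hgi
            refine ⟨hg, fun j hj => ?_⟩
            rcases Nat.lt_or_ge i.val j.val with h3 | h3
            · exact hZ hg j (by omega)
            · have : j = i := Fin.ext (le_antisymm h3 hj)
              rw [this, hgi]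
          rcases zmod2_cases (f i) with h3 | h3
          · left; exact hlow f hf h3
          · right
            refine hlow _ (Z.add_mem hf hv) ?_
            rw [Pi.add_apply, h3, hvi1]
            decide
        · rw [Submodule.span_singleton_le_iff_mem]
          exact hv
      have hmap : Z.map (tau i) = Z0 ⊔ Submodule.span (ZMod 2) {v + ee N b} := by
        rw [hZe, Submodule.map_sup, map_tau_fix (b := i.val) le_rfl (Z := Z0) inf_le_right,
          Submodule.map_span, Set.image_singleton, tau_apply, hvi1, one_smul, h1]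
      refine ⟨Z0, b, y, Z0, b, y, ⟨hZ0b, hy, hyb⟩, le_rfl, ⟨hZ0b, hy, hyb⟩, le_rfl, fun S => ?_⟩
      rw [mm_left (by omega), hmap, ← sup_assoc]
      have hS : S ⊔ Z = S ⊔ Z0 ⊔ Submodule.span (ZMod 2) {v} := by
        rw [sup_assoc, ← hZe]
      rw [hS]
      have := mm_pair (S ⊔ Z0) v hyb
      linarith
    · push Not at h2
      refine ⟨Z, b, y, Z, b, y, ⟨hZ, hy, hyb⟩, le_rfl, ⟨hZ, hy, hyb⟩, le_rfl, fun S => ?_⟩
      have hmap : Z.map (tau i) = Z := by
        ext f
        constructor
        · rintro ⟨g, hg, rfl⟩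
          rwa [tau_apply, h2 g hg, zero_smul, add_zero]
        · intro hf
          refine ⟨f, hf, ?_⟩
          rw [tau_apply, h2 f hf, zero_smul, add_zero]
      rw [mm_left (by omega), hmap]
  · -- both columns at or right of `b`
    have hbi : b ≤ i.val := by omega
    by_cases hcr : i.val = b ∧ ee N (i.val + 1) ⬝ᵥ y = 1
    · obtain ⟨hib, hy1⟩ := hcr
      have hxv : xv i y = y + Pi.single ⟨b, hbN⟩ 1 := by
        unfold xv
        rw [hy1]
        have : i = ⟨b, hbN⟩ := Fin.ext hib
        rw [this]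
      have hb1 : b + 1 < N := by
        by_contra h3
        rw [hib, ee_out (by omega), zero_dotProduct] at hy1
        exact one_ne_zero hy1.symm
      have hval : Val Z (b + 1) (y + Pi.single ⟨b, hbN⟩ 1) := by
        refine ⟨hZ.trans (ltS_mono (Nat.le_succ b)), fun j hj => ?_, ?_⟩
        · rcases Nat.lt_succ_iff_lt_or_eq.1 hj with h4 | h4
          · rw [Pi.add_apply, hy j h4, Pi.single_eq_of_ne, add_zero]
            intro h5
            have := congrArg Fin.val h5
            simp only at this
            omega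
          · have h5 : j = ⟨b, hbN⟩ := Fin.ext h4
            rw [h5, Pi.add_apply, Pi.single_eq_same]
            rw [ee_dot hbN] at hyb
            rw [hyb]
            decide
        · rw [ee_dot hb1, Pi.add_apply, Pi.single_eq_of_ne, add_zero]
          · rw [hib, ee_dot hb1] at hy1
            exact hy1
          · intro h5
            have := congrArg Fin.val h5
            simp only at this
            omega
      refine ⟨Z, b + 1, _, Z, b + 1, _, hval, Nat.le_succ b, hval, Nat.le_succ b, fun S => ?_⟩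
      rw [mm_right hbi S hZ, hxv, mm_crit hbN]
      linarith
    · refine ⟨Z, b, y, Z, b, xv i y, ⟨hZ, hy, hyb⟩, le_rfl, ⟨hZ, ?_, ?_⟩, le_rfl, fun S => ?_⟩
      · intro j hj
        unfold xv
        rw [Pi.add_apply, hy j hj, Pi.single_eq_of_ne, add_zero]
        intro h5
        rw [h5] at hj
        omega
      · unfold xv
        rw [dotProduct_add, hyb, ee_dot hbN]
        by_cases hib : i.val = b
        · have hy1 : ee N (i.val + 1) ⬝ᵥ y = 0 := by
            rcases zmod2_cases (ee N (i.val + 1) ⬝ᵥ y) with h3 | h3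
            · exact h3
            · exact absurd ⟨hib, h3⟩ hcr
          rw [hy1, Pi.single_zero, Pi.zero_apply, add_zero]
        · rw [Pi.single_eq_of_ne, add_zero]
          intro h5
          exact hib (congrArg Fin.val h5).symm
      · rw [mm_right hbi S hZ]

end Pool.Agent.CutFull.Fix
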