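import Pool.Agent.CutFull.Fix.Dual
import Pool.Agent.CutFull.Fix.Step
import Pool.Agent.CutFull.Defs

/-!
FIXVEC, matrix form: for every fixed vector `y` whose first nonzero coordinate is `b`,
`E [2 ^ rank (rows < a, columns ≥ b) 1 (the rows < a kill y)] ≤ 1`,
for every word and for the continuous-time walk.
-/

set_option autoImplicit false
set_option linter.unusedSectionVars false

namespace Pool.Agent.CutFull.Fix

open Pool.Agent.Helper8.UT Finset Matrix

variable {N : ℕ}

/-- span of the rows `< a` -/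
def rsp (a : ℕ) (A : MM N) : Submodule (ZMod 2) (VV N) :=
  Submodule.span (ZMod 2) {f | ∃ i : Fin N, i.val < a ∧ f = A i}

theorem strr_row (i : Fin N) (A : MM N) (r : Fin N) : strr i A r = tau i (A r) := by
  funext j
  unfold strr xg
  rw [Matrix.mul_add, Matrix.mul_one, Matrix.add_apply, tau_apply, Pi.add_apply, Pi.smul_apply,
    smul_eq_mul]
  congr 1
  rw [Matrix.mul_apply, Finset.sum_eq_single i]
  · unfold ee
    rw [Matrix.of_apply]
    congr 1
    simp
  · intro k _ hk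
    rw [Matrix.of_apply, if_neg (fun h => hk h.1), mul_zero]
  · intro h; exact absurd (Finset.mem_univ _) h

theorem rsp_strr (a : ℕ) (i : Fin N) (A : MM N) : rsp a (strr i A) = (rsp a A).map (tau i) := by
  unfold rsp
  rw [Submodule.map_span]
  congr 1
  ext f
  constructor
  · rintro ⟨r, hr, rfl⟩
    exact ⟨A r, ⟨r, hr, rfl⟩, (strr_row i A r).symm⟩
  · rintro ⟨_, ⟨r, hr, rfl⟩, rfl⟩
    exact ⟨r, hr, (strr_row i A r).symm⟩

/-- left step with a coin -/
def sL (l : Fin N × Bool) (A : MM N) : MM N := if l.2 = true then stl l.1 A else A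
/-- right step with a coin -/
def sR (l : Fin N × Bool) (A : MM N) : MM N := if l.2 = true then strr l.1 A else A

theorem sLR_comm (k l : Fin N × Bool) (A : MM N) : sL k (sR l A) = sR l (sL k A) := by
  unfold sL sR
  split_ifs
  · unfold stl strr
    rw [Matrix.mul_assoc]
  · rfl
  · rfl
  · rfl

theorem sLR_one (l : Fin N × Bool) : sL l (1 : MM N) = sR l 1 := by
  unfold sL sR
  split_ifs
  · unfold stl strr
    rw [Matrix.one_mul, Matrix.mul_one]
  · rfl

theorem EE_eq_sL (t : ℝ) (f : MM N → ℝ) : EE N t f = Sg (sL (N := N)) t f 1 := by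
  unfold EE
  refine (Sg_intertwine (stX := sL (N := N)) (stY := stl (N := N)) (fun A => A)
    (Clo_univ _) (fun g A _ => ?_) f t 1 trivial).symm
  unfold gen
  rw [Fintype.sum_prod_type]
  congr 1
  refine Finset.sum_congr rfl fun i _ => ?_
  rw [Fintype.sum_bool]
  have h1 : sL (i, true) A = stl i A := rfl
  have h2 : sL (i, false) A = A := rfl
  rw [h1, h2, sub_self, add_zero]

/-- comparison principle for the matrix walk -/
theorem EE_family {D : Type*} {h : D → MM N → ℝ} (h0 : ∀ d, h d 1 ≤ 1)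
    (hstep : ∀ d i, ∃ d₁ d₂, ∀ A, h d A + h d (strr i A) ≤ h d₁ A + h d₂ A) {t : ℝ} (ht : 0 ≤ t)
    (d : D) : EE N t (h d) ≤ 1 := by
  rw [EE_eq_sL, Sg_left_right (R := sR (N := N)) sLR_comm sLR_one]
  exact Sg_family h0 (fun d i => hstep d i) ht d

/-- comparison principle for words -/
theorem word_family {D : Type*} {h : D → MM N → ℝ} (h0 : ∀ d, h d 1 ≤ 1)
    (hstep : ∀ d i, ∃ d₁ d₂, ∀ A, h d A + h d (strr i A) ≤ h d₁ A + h d₂ A) (W : List (Fin N))
    (d : D) : wE (sL (N := N)) W (h d) 1 ≤ 1 :=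
  wE_family (R := sR (N := N)) sLR_comm sLR_one h0 (fun d i => hstep d i) W d

/-- admissible data as a type -/
abbrev VD (N : ℕ) := {d : Submodule (ZMod 2) (VV N) × ℕ × VV N // Val d.1 d.2.1 d.2.2}

/-- the family of functions -/
noncomputable def hM (a : ℕ) (d : VD N) (A : MM N) : ℝ := mm (rsp a A ⊔ d.1.1) d.1.2.1 d.1.2.2

theorem rsp_one {a b : ℕ} (h : a ≤ b) : rsp a (1 : MM N) ≤ ltS N b := by
  unfold rsp
  rw [Submodule.span_le]
  rintro _ ⟨i, hi, rfl⟩
  intro j hj
  rw [Matrix.one_apply_ne]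
  intro h2
  rw [h2] at hi
  omega

theorem hM_one (a : ℕ) (d : VD N) : hM a d 1 ≤ 1 := by
  obtain ⟨⟨Z, b, y⟩, hd⟩ := d
  unfold hM
  dsimp only
  rcases le_or_gt a b with h | h
  · rw [mm_one (sup_le (rsp_one h) hd.1)]
  · rw [mm_zero (f := ee N b) ?_ (ee_mem_ge le_rfl) hd.2.2]
    · exact zero_le_one
    · refine Submodule.mem_sup_left (Submodule.subset_span ⟨⟨b, hd.lt⟩, h, ?_⟩)
      funext j
      unfold ee
      rw [Matrix.one_apply]
      refine if_congr ?_ rfl rfl
      constructor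
      · intro h2; exact Fin.ext h2.symm
      · intro h2; rw [← h2]

theorem hM_step (a : ℕ) (d : VD N) (i : Fin N) : ∃ d₁ d₂ : VD N, ∀ A,
    hM a d A + hM a d (strr i A) ≤ hM a d₁ A + hM a d₂ A := by
  obtain ⟨⟨Z, b, y⟩, hd⟩ := d
  obtain ⟨Z₁, b₁, y₁, Z₂, b₂, y₂, h1, _, h2, _, h3⟩ := val_step hd i
  refine ⟨⟨(Z₁, b₁, y₁), h1⟩, ⟨(Z₂, b₂, y₂), h2⟩, fun A => ?_⟩
  unfold hM
  dsimp only
  rw [rsp_strr]
  exact h3 _

theorem fixM_general (a : ℕ) {Z : Submodule (ZMod 2) (VV N)} {b : ℕ} {y : VV N} (h : Val Z b y)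
    {t : ℝ} (ht : 0 ≤ t) : EE N t (fun A => mm (rsp a A ⊔ Z) b y) ≤ 1 :=
  EE_family (h := hM a) (hM_one a) (hM_step a) ht ⟨(Z, b, y), h⟩

theorem fixM_general_word (a : ℕ) {Z : Submodule (ZMod 2) (VV N)} {b : ℕ} {y : VV N}
    (h : Val Z b y) (W : List (Fin N)) :
    wE (sL (N := N)) W (fun A => mm (rsp a A ⊔ Z) b y) 1 ≤ 1 :=
  word_family (h := hM a) (hM_one a) (hM_step a) W ⟨(Z, b, y), h⟩

/-! identification with ranks -/

/-- restriction to the columns `≥ b` -/
def pb (N b : ℕ) : VV N →ₗ[ZMod 2] VV N where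
  toFun f := fun j => if b ≤ j.val then f j else 0
  map_add' := by
    intro f g
    funext j
    by_cases h : b ≤ j.val
    · simp [h]
    · simp [h]
  map_smul' := by
    intro c f
    funext j
    by_cases h : b ≤ j.val
    · simp [h]
    · simp [h]

theorem pb_apply (b : ℕ) (f : VV N) (j : Fin N) : pb N b f j = if b ≤ j.val then f j else 0 := rfl

theorem pb_ge {b : ℕ} (f : VV N) : pb N b f ∈ geS N b := by
  intro j hj
  rw [pb_apply, if_neg (by omega)]

theorem pb_fix {b : ℕ} {f : VV N} (hf : f ∈ geS N b) : pb N b f = f := by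
  funext j
  rw [pb_apply]
  by_cases h : b ≤ j.val
  · rw [if_pos h]
  · rw [if_neg h, hf j (by omega)]

theorem pb_kill {b : ℕ} {f : VV N} (hf : f ∈ ltS N b) : pb N b f = 0 := by
  funext j
  rw [pb_apply]
  by_cases h : b ≤ j.val
  · rw [if_pos h, hf j h]; rfl
  · rw [if_neg h]; rfl

theorem sub_pb {b : ℕ} (f : VV N) : f + pb N b f ∈ ltS N b := by
  intro j hj
  rw [Pi.add_apply, pb_apply, if_pos hj]
  exact CharTwo.add_self_eq_zero _

theorem sup_inf_eq (S : Submodule (ZMod 2) (VV N)) (b : ℕ) :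
    (S ⊔ ltS N b) ⊓ geS N b = S.map (pb N b) := by
  ext f
  constructor
  · rintro ⟨h1, h2⟩
    obtain ⟨s, hs, z, hz, rfl⟩ := Submodule.mem_sup.1 h1
    refine ⟨s, hs, ?_⟩
    rw [← pb_fix h2, map_add, pb_kill hz, add_zero]
  · rintro ⟨s, hs, rfl⟩
    refine ⟨?_, pb_ge s⟩
    have : pb N b s = s + (s + pb N b s) := by rw [← add_assoc, add_self2, zero_add]
    rw [this]
    exact (S ⊔ ltS N b).add_mem (Submodule.mem_sup_left hs) (Submodule.mem_sup_right (sub_pb s))

open Classical in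
theorem card_filter_eq (S : Submodule (ZMod 2) (VV N)) :
    (Finset.univ.filter (fun f : VV N => f ∈ S)).card = 2 ^ Module.finrank (ZMod 2) S := by
  have h1 : Fintype.card S = 2 ^ Module.finrank (ZMod 2) S := by
    rw [Module.card_eq_pow_finrank (K := ZMod 2) (V := S), ZMod.card]
  rw [← h1]
  exact (Fintype.card_subtype _).symm

theorem map_pb_rsp (a b : ℕ) (A : MM N) :
    Module.finrank (ZMod 2) ((rsp a A).map (pb N b)) = crk a b A := by
  unfold crk
  rw [Matrix.rank_eq_finrank_span_row]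
  have : (rsp a A).map (pb N b) = Submodule.span (ZMod 2) (Set.range (cblk a b A).row) := by
    unfold rsp
    rw [Submodule.map_span]
    refine le_antisymm ?_ ?_
    · rw [Submodule.span_le]
      rintro _ ⟨_, ⟨i, hi, rfl⟩, rfl⟩
      refine Submodule.subset_span ⟨i, ?_⟩
      funext j
      have e1 : (cblk a b A).row i j = if i.val < a ∧ b ≤ j.val then A i j else 0 := rfl
      rw [e1, pb_apply]
      by_cases h : b ≤ j.val
      · rw [if_pos ⟨hi, h⟩, if_pos h]
      · rw [if_neg (fun h2 => h h2.2), if_neg h]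
    · rw [Submodule.span_le]
      rintro _ ⟨i, rfl⟩
      by_cases hi : i.val < a
      · refine Submodule.subset_span ⟨A i, ⟨i, hi, rfl⟩, ?_⟩
        funext j
        have e1 : (cblk a b A).row i j = if i.val < a ∧ b ≤ j.val then A i j else 0 := rfl
        rw [e1, pb_apply]
        by_cases h : b ≤ j.val
        · rw [if_pos h, if_pos ⟨hi, h⟩]
        · rw [if_neg h, if_neg (fun h2 => h h2.2)]
      · have : (cblk a b A).row i = 0 := by
          funext j
          have e1 : (cblk a b A).row i j = if i.val < a ∧ b ≤ j.val then A i j else 0 := rfl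
          rw [e1, if_neg (fun h2 => hi h2.1)]
          rfl
        rw [this]
        exact Submodule.zero_mem _
  rw [this]

open Classical in
/-- value of the weighted indicator for `Z = ` everything left of `b` -/
theorem mm_sup_lt (S : Submodule (ZMod 2) (VV N)) (b : ℕ) {y : VV N} (hy : y ∈ geS N b) :
    mm (S ⊔ ltS N b) b y = if (∀ f ∈ S, f ⬝ᵥ y = 0) then
      (2 : ℝ) ^ Module.finrank (ZMod 2) (S.map (pb N b)) else 0 := by
  rw [mm_val]
  refine if_congr ?_ ?_ rfl
  · constructor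
    · intro h f hf
      have h1 : pb N b f ∈ (S ⊔ ltS N b) ⊓ geS N b := by
        rw [sup_inf_eq]
        exact ⟨f, hf, rfl⟩
      have h2 := h _ h1.1 h1.2
      have h3 := dot_ge_lt (sub_pb (b := b) f) hy
      rw [add_dotProduct, h2, add_zero] at h3
      exact h3
    · intro h f hf _
      obtain ⟨s, hs, z, hz, rfl⟩ := Submodule.mem_sup.1 hf
      rw [add_dotProduct, h s hs, dot_ge_lt hz hy, add_zero]
  · rw [← sup_inf_eq]
    have : (Finset.univ.filter (fun f : VV N => f ∈ S ⊔ ltS N b ∧ f ∈ geS N b)) =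
        Finset.univ.filter (fun f : VV N => f ∈ (S ⊔ ltS N b) ⊓ geS N b) := by
      ext f
      simp only [Finset.mem_filter, Finset.mem_univ, true_and, Submodule.mem_inf]
    rw [this, card_filter_eq]
    push_cast
    rfl

theorem rsp_kill (a : ℕ) (A : MM N) (y : VV N) :
    (∀ f ∈ rsp a A, f ⬝ᵥ y = 0) ↔ ∀ i : Fin N, i.val < a → A i ⬝ᵥ y = 0 := by
  constructor
  · intro h i hi
    exact h _ (Submodule.subset_span ⟨i, hi, rfl⟩)
  · intro h f hf
    unfold rsp at hf
    induction hf using Submodule.span_induction with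
    | mem x hx => obtain ⟨i, hi, rfl⟩ := hx; exact h i hi
    | zero => exact zero_dotProduct _
    | add x z _ _ hx hz => rw [add_dotProduct, hx, hz, add_zero]
    | smul c x _ hx => rw [smul_dotProduct, hx, smul_zero]

open Classical in
theorem mm_rsp (a b : ℕ) {y : VV N} (hy : y ∈ geS N b) (A : MM N) :
    mm (rsp a A ⊔ ltS N b) b y =
      if (∀ i : Fin N, i.val < a → A i ⬝ᵥ y = 0) then (2 : ℝ) ^ crk a b A else 0 := by
  rw [mm_sup_lt _ _ hy, map_pb_rsp]
  exact if_congr (rsp_kill a A y) rfl rfl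

open Classical in
/-- FIXVEC, matrix form, continuous time -/
theorem fixvec_M {t : ℝ} (ht : 0 ≤ t) (a : ℕ) (b : Fin N) {y : VV N}
    (hy : ∀ j : Fin N, j.val < b.val → y j = 0) (hb : y b = 1) :
    EE N t (fun A => if (∀ i : Fin N, i.val < a → A i ⬝ᵥ y = 0) then (2 : ℝ) ^ crk a b.val A
      else 0) ≤ 1 := by
  have hv : Val (ltS N b.val) b.val y := ⟨le_rfl, hy, by rw [ee_dot b.isLt]; exact hb⟩
  have := fixM_general a hv ht
  refine le_trans (le_of_eq ?_) this
  congr 1
  funext A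
  exact (mm_rsp a b.val hy A).symm

open Classical in
/-- FIXVEC, matrix form, every word -/
theorem fixvec_M_word (W : List (Fin N)) (a : ℕ) (b : Fin N) {y : VV N}
    (hy : ∀ j : Fin N, j.val < b.val → y j = 0) (hb : y b = 1) :
    wE (sL (N := N)) W (fun A => if (∀ i : Fin N, i.val < a → A i ⬝ᵥ y = 0) then
      (2 : ℝ) ^ crk a b.val A else 0) 1 ≤ 1 := by
  have hv : Val (ltS N b.val) b.val y := ⟨le_rfl, hy, by rw [ee_dot b.isLt]; exact hb⟩
  have := fixM_general_word a hv W
  refine le_trans (le_of_eq ?_) this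
  congr 1
  funext A
  exact (mm_rsp a b.val hy A).symm

open Classical in
/-- first moment form: at most `|E| 2 ^ (-ρ)` vectors of `E` (all starting at the column `b`) are
killed by the rows `< a` while the corner has rank at least `ρ`, in expectation -/
theorem fixvec_count {t : ℝ} (ht : 0 ≤ t) (a : ℕ) (b : Fin N) (ρ : ℕ) (E : Finset (VV N))
    (hE : ∀ y ∈ E, (∀ j : Fin N, j.val < b.val → y j = 0) ∧ y b = 1) :
    EE N t (fun A => if ρ ≤ crk a b.val A then
      ((E.filter fun y => ∀ i : Fin N, i.val < a → A i ⬝ᵥ y = 0).card : ℝ) else 0) ≤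
      (E.card : ℝ) * (1 / 2) ^ ρ := by
  have h1 : ∀ A : MM N, (if ρ ≤ crk a b.val A then
      ((E.filter fun y => ∀ i : Fin N, i.val < a → A i ⬝ᵥ y = 0).card : ℝ) else 0) ≤
      ∑ y ∈ E, (1 / 2 : ℝ) ^ ρ * (if (∀ i : Fin N, i.val < a → A i ⬝ᵥ y = 0) then
        (2 : ℝ) ^ crk a b.val A else 0) := by
    intro A
    have hnn : ∀ y ∈ E, (0 : ℝ) ≤ (1 / 2 : ℝ) ^ ρ *
        (if (∀ i : Fin N, i.val < a → A i ⬝ᵥ y = 0) then (2 : ℝ) ^ crk a b.val A else 0) := by
      intro y _
      split_ifs <;> positivity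
    split_ifs with h
    · rw [Finset.card_filter]
      push_cast
      refine Finset.sum_le_sum fun y _ => ?_
      split_ifs with h2
      · have h3 : (2 : ℝ) ^ ρ ≤ (2 : ℝ) ^ crk a b.val A := pow_le_pow_right₀ (by norm_num) h
        have h4 : (1 / 2 : ℝ) ^ ρ * (2 : ℝ) ^ ρ = 1 := by
          rw [← mul_pow]; norm_num
        have h5 := mul_le_mul_of_nonneg_left h3 (by positivity : (0 : ℝ) ≤ (1 / 2 : ℝ) ^ ρ)
        linarith
      · simp
    · exact Finset.sum_nonneg hnn
  refine (EE_mono ht (fun A _ => h1 A)).trans ?_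
  unfold EE
  rw [Sg_sum_apply]
  have h2 : ∀ y ∈ E, Sg (stl (N := N)) t (fun A => (1 / 2 : ℝ) ^ ρ *
      (if (∀ i : Fin N, i.val < a → A i ⬝ᵥ y = 0) then (2 : ℝ) ^ crk a b.val A else 0)) 1 ≤
      (1 / 2 : ℝ) ^ ρ := by
    intro y hy
    rw [Sg_mul_apply]
    have h3 := fixvec_M ht a b (hE y hy).1 (hE y hy).2
    unfold EE at h3
    have h4 : (0 : ℝ) ≤ (1 / 2 : ℝ) ^ ρ := by positivity
    have := mul_le_mul_of_nonneg_left h3 h4
    linarith
  refine (Finset.sum_le_sum h2).trans ?_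
  rw [Finset.sum_const, nsmul_eq_mul]

end Pool.Agent.CutFull.Fix
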