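import Pool.Agent.CutFull.Fix.FixM
import Pool.Agent.Helper8.UT.Aug

/-!
FIXVEC for hidden relations: for every fixed vector `y` whose first nonzero coordinate is `b ≥ r + 1`,
`E [2 ^ rank (T_r on the columns ≥ b) 1 (y is a hidden relation of the row r)] ≤ 1`,
for every word and for the continuous-time walk, `T_r` = span of the row `r + 1` at the rings of `r`.
-/

set_option autoImplicit false
set_option linter.unusedSectionVars false

namespace Pool.Agent.CutFull.Fix

open Pool.Agent.Helper8.UT Finset Matrix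

variable {N : ℕ}

noncomputable instance instFintypeSub : Fintype (Submodule (ZMod 2) (VV N)) :=
  haveI : Finite (Submodule (ZMod 2) (VV N)) :=
    Finite.of_injective (fun S => (S : Set (VV N))) SetLike.coe_injective
  Fintype.ofFinite _

/-- states: the matrix and the span of the recorded rows -/
abbrev VS (N : ℕ) := MM N × Submodule (ZMod 2) (VV N)

/-- left step, the row `r + 1` is recorded at the rings of `r` -/
def vL (r : Fin N) (l : Fin N × Bool) (x : VS N) : VS N :=
  (sL l x.1, if l.1 = r then x.2 ⊔ Submodule.span (ZMod 2) {rowN x.1 (r.val + 1)} else x.2)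

/-- right step -/
def vR (r : Fin N) (l : Fin N × Bool) (x : VS N) : VS N :=
  (sR l x.1, (if l.2 = true then x.2.map (tau l.1) else x.2) ⊔
    (if l.1 = r then Submodule.span (ZMod 2) {ee N (r.val + 1)} else ⊥))

theorem rowN_strr (i : Fin N) (A : MM N) (m : ℕ) : rowN (strr i A) m = tau i (rowN A m) := by
  by_cases h : m < N
  · have h1 := rowN_fin (strr i A) ⟨m, h⟩
    have h2 := rowN_fin A ⟨m, h⟩
    simp only at h1 h2
    rw [h1, h2, strr_row]
  · have h1 : ∀ B : MM N, rowN B m = 0 := by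
      intro B
      funext j
      unfold rowN
      rw [dif_neg h]
      rfl
    rw [h1, h1, map_zero]

theorem rowN_one (m : ℕ) : rowN (1 : MM N) m = ee N m := by
  funext j
  unfold rowN ee
  by_cases h : m < N
  · rw [dif_pos h, Matrix.one_apply]
    refine if_congr ?_ rfl rfl
    constructor
    · intro h2; rw [← h2]
    · intro h2; exact Fin.ext h2.symm
  · rw [dif_neg h, if_neg]
    have := j.isLt
    omega

theorem vLR_comm (r : Fin N) (k l : Fin N × Bool) (x : VS N) :
    vL r k (vR r l x) = vR r l (vL r k x) := by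
  obtain ⟨A, S⟩ := x
  obtain ⟨i, c⟩ := k
  obtain ⟨j, d⟩ := l
  refine Prod.ext (sLR_comm _ _ _) ?_
  simp only [vL, vR]
  by_cases h1 : i = r
  · rw [if_pos h1, if_pos h1]
    cases d with
    | false =>
      have e1 : sR (j, false) A = A := rfl
      simp only [e1, Bool.false_eq_true, if_false]
      rw [sup_assoc, sup_comm (if j = r then _ else _), ← sup_assoc]
    | true =>
      have e1 : sR (j, true) A = strr j A := rfl
      simp only [e1, if_true]
      rw [rowN_strr, Submodule.map_sup, Submodule.map_span, Set.image_singleton, sup_assoc,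
        sup_comm (if j = r then _ else _), ← sup_assoc]
  · rw [if_neg h1, if_neg h1]

theorem vLR_one (r : Fin N) (l : Fin N × Bool) :
    vL r l ((1 : MM N), (⊥ : Submodule (ZMod 2) (VV N))) = vR r l (1, ⊥) := by
  obtain ⟨i, c⟩ := l
  refine Prod.ext (sLR_one _) ?_
  simp only [vL, vR]
  have e1 : (if c = true then (⊥ : Submodule (ZMod 2) (VV N)).map (tau i) else ⊥) = ⊥ := by
    rw [Submodule.map_bot]
    split_ifs <;> rfl
  rw [e1, rowN_one]
  split_ifs
  · rfl
  · rw [bot_sup_eq]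

/-- admissible data with `r + 1 ≤ b` -/
abbrev VDr (N : ℕ) (r : Fin N) :=
  {d : Submodule (ZMod 2) (VV N) × ℕ × VV N // Val d.1 d.2.1 d.2.2 ∧ r.val + 1 ≤ d.2.1}

/-- the family of functions -/
noncomputable def hV (r : Fin N) (d : VDr N r) (x : VS N) : ℝ :=
  mm (x.2 ⊔ d.1.1) d.1.2.1 d.1.2.2

theorem hV_one (r : Fin N) (d : VDr N r) : hV r d (1, ⊥) ≤ 1 := by
  unfold hV
  rw [mm_one]
  rw [bot_sup_eq]
  exact d.2.1.1

theorem hV_step (r : Fin N) (d : VDr N r) (i : Fin N) : ∃ d₁ d₂ : VDr N r, ∀ x,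
    hV r d (vR r (i, false) x) + hV r d (vR r (i, true) x) ≤ hV r d₁ x + hV r d₂ x := by
  obtain ⟨⟨Z, b, y⟩, hd, hr⟩ := d
  dsimp only at hd hr
  by_cases hir : i = r
  · rcases Nat.lt_or_ge (r.val + 1) b with h | h
    · have hd' : Val (Z ⊔ Submodule.span (ZMod 2) {ee N (r.val + 1)}) b y := by
        refine ⟨sup_le hd.1 ?_, hd.2.1, hd.2.2⟩
        rw [Submodule.span_singleton_le_iff_mem]
        exact ee_mem_lt h
      obtain ⟨Z₁, b₁, y₁, Z₂, b₂, y₂, h1, h1', h2, h2', h3⟩ := val_step hd' i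
      refine ⟨⟨(Z₁, b₁, y₁), h1, hr.trans h1'⟩, ⟨(Z₂, b₂, y₂), h2, hr.trans h2'⟩, fun x => ?_⟩
      have e := h3 x.2
      unfold hV vR
      simp only [hir, if_true, Bool.false_eq_true, if_false]
      rw [hir] at e
      rw [sup_assoc, sup_comm (Submodule.span (ZMod 2) {ee N (r.val + 1)}) Z,
        sup_assoc (x.2.map (tau r)), sup_comm (Submodule.span (ZMod 2) {ee N (r.val + 1)}) Z]
      exact e
    · have hb : r.val + 1 = b := le_antisymm hr h
      refine ⟨⟨(Z, b, y), hd, hr⟩, ⟨(Z, b, y), hd, hr⟩, fun x => ?_⟩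
      have h0 : ∀ S : Submodule (ZMod 2) (VV N),
          mm (S ⊔ Submodule.span (ZMod 2) {ee N (r.val + 1)} ⊔ Z) b y = 0 := by
        intro S
        refine mm_zero (f := ee N b) ?_ (ee_mem_ge le_rfl) hd.2.2
        refine Submodule.mem_sup_left (Submodule.mem_sup_right ?_)
        rw [hb]
        exact Submodule.mem_span_singleton_self _
      unfold hV vR
      simp only [hir, if_true]
      rw [h0, h0, add_zero]
      exact add_nonneg (mm_nonneg _ _ _) (mm_nonneg _ _ _)
  · obtain ⟨Z₁, b₁, y₁, Z₂, b₂, y₂, h1, h1', h2, h2', h3⟩ := val_step hd i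
    refine ⟨⟨(Z₁, b₁, y₁), h1, hr.trans h1'⟩, ⟨(Z₂, b₂, y₂), h2, hr.trans h2'⟩, fun x => ?_⟩
    have e := h3 x.2
    unfold hV vR
    simp only [hir, if_true, Bool.false_eq_true, if_false, sup_bot_eq]
    exact e

theorem fixV_general {r : Fin N} {Z : Submodule (ZMod 2) (VV N)} {b : ℕ} {y : VV N}
    (h : Val Z b y) (hr : r.val + 1 ≤ b) {t : ℝ} (ht : 0 ≤ t) :
    Sg (vL r) t (fun x => mm (x.2 ⊔ Z) b y) (1, ⊥) ≤ 1 := by
  rw [Sg_left_right (R := vR r) (vLR_comm r) (vLR_one r)]
  exact Sg_family (h := hV r) (hV_one r) (hV_step r) ht ⟨(Z, b, y), h, hr⟩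

theorem fixV_general_word {r : Fin N} {Z : Submodule (ZMod 2) (VV N)} {b : ℕ} {y : VV N}
    (h : Val Z b y) (hr : r.val + 1 ≤ b) (W : List (Fin N)) :
    wE (vL r) W (fun x => mm (x.2 ⊔ Z) b y) (1, ⊥) ≤ 1 :=
  wE_family (R := vR r) (vLR_comm r) (vLR_one r) (h := hV r) (hV_one r) (hV_step r) W
    ⟨(Z, b, y), h, hr⟩

/-! passage to the augmented walk of `Helper8.UT.Aug` -/

/-- the matrix and one set of vectors -/
abbrev YS (N : ℕ) := MM N × Finset (VV N)

/-- step for the pair -/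
def yL (r : Fin N) (l : Fin N × Bool) (x : YS N) : YS N :=
  (sL l x.1, if l.1 = r then x.2.filter (fun ψ => rowN x.1 (r.val + 1) ⬝ᵥ ψ = 0) else x.2)

open Classical in
/-- the vectors killed by `S` -/
noncomputable def annF (S : Submodule (ZMod 2) (VV N)) : Finset (VV N) :=
  Finset.univ.filter fun ψ => ∀ f ∈ S, f ⬝ᵥ ψ = 0

theorem mem_annF {S : Submodule (ZMod 2) (VV N)} {ψ : VV N} :
    ψ ∈ annF S ↔ ∀ f ∈ S, f ⬝ᵥ ψ = 0 := by
  classical
  unfold annF
  rw [Finset.mem_filter]
  exact ⟨fun h => h.2, fun h => ⟨Finset.mem_univ _, h⟩⟩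

theorem annF_sup (S : Submodule (ZMod 2) (VV N)) (v : VV N) :
    annF (S ⊔ Submodule.span (ZMod 2) {v}) = (annF S).filter (fun ψ => v ⬝ᵥ ψ = 0) := by
  ext ψ
  rw [Finset.mem_filter, mem_annF, mem_annF]
  constructor
  · intro h
    exact ⟨fun f hf => h f (Submodule.mem_sup_left hf),
      h v (Submodule.mem_sup_right (Submodule.mem_span_singleton_self v))⟩
  · rintro ⟨h1, h2⟩ f hf
    rcases mem_sup_span.1 hf with h3 | h3
    · exact h1 f h3
    · have := h1 _ h3
      rw [add_dotProduct, h2, add_zero] at this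
      exact this

theorem gen_pt {X Y κ : Type*} [Fintype X] [Fintype Y] [Fintype κ] {stX : κ → X → X}
    {stY : κ → Y → Y} (φ : X → Y) (h : ∀ l x, φ (stX l x) = stY l (φ x)) (g : Y → ℝ) (x : X) :
    gen stX (fun z => g (φ z)) x = gen stY g (φ x) := by
  unfold gen
  congr 1
  exact Finset.sum_congr rfl fun l _ => by
    change g (φ (stX l x)) - g (φ x) = _
    rw [h]

theorem phi1 (r : Fin N) (l : Fin N × Bool) (s : AS N) :
    (((sta l s).1, (sta l s).2 r) : YS N) = yL r l (s.1, s.2 r) := by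
  obtain ⟨i, c⟩ := l
  refine Prod.ext rfl ?_
  simp only [sta, yL]
  by_cases h : i = r
  · rw [h, Function.update_self, if_pos rfl]
  · rw [if_neg h, Function.update_of_ne (Ne.symm h)]

theorem phi2 (r : Fin N) (l : Fin N × Bool) (x : VS N) :
    (((vL r l x).1, annF (vL r l x).2) : YS N) = yL r l (x.1, annF x.2) := by
  obtain ⟨i, c⟩ := l
  refine Prod.ext rfl ?_
  simp only [vL, yL]
  by_cases h : i = r
  · rw [if_pos h, if_pos h, annF_sup]
  · rw [if_neg h, if_neg h]

theorem EA_eq_vL (r : Fin N) (t : ℝ) (G : YS N → ℝ) :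
    EA N t (fun s => G (s.1, s.2 r)) = Sg (vL r) t (fun x => G (x.1, annF x.2)) (1, ⊥) := by
  have h1 := Sg_intertwine (stX := sta (N := N)) (stY := yL r) (fun s : AS N => (s.1, s.2 r))
    (Clo_univ _) (fun g x _ => gen_pt _ (phi1 r) g x) G t (st0 N) trivial
  have h2 := Sg_intertwine (stX := vL r) (stY := yL r) (fun x : VS N => (x.1, annF x.2))
    (Clo_univ _) (fun g x _ => gen_pt _ (phi2 r) g x) G t (1, ⊥) trivial
  unfold EA
  rw [h1, h2]
  congr 1
  refine Prod.ext rfl ?_
  ext ψ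
  simp only [st0, Finset.mem_univ, true_iff]
  rw [mem_annF]
  intro f hf
  rw [(Submodule.mem_bot (ZMod 2)).1 hf, zero_dotProduct]

theorem card_geS {b : ℕ} (hb : b ≤ N) [DecidablePred (fun f : VV N => f ∈ geS N b)] :
    (Finset.univ.filter (fun f : VV N => f ∈ geS N b)).card = 2 ^ (N - b) := by
  classical
  rw [← card_SI hb le_rfl]
  congr 1
  ext f
  rw [Finset.mem_filter, mem_SI]
  constructor
  · rintro ⟨_, h⟩ j hj
    refine ⟨?_, j.isLt⟩
    by_contra h2
    exact hj (h j (by omega))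
  · intro h
    refine ⟨Finset.mem_univ _, fun j hj => ?_⟩
    by_contra h2
    have := (h j h2).1
    omega

open Classical in
theorem double_count (S : Submodule (ZMod 2) (VV N)) {b : ℕ} (hb : b ≤ N) :
    (2 : ℝ) ^ Module.finrank (ZMod 2) (S.map (pb N b)) *
      (((annF S).filter (fun ψ => ψ ∈ geS N b)).card : ℝ) = 2 ^ (N - b) := by
  set D := S.map (pb N b) with hD
  have hDge : D ≤ geS N b := by
    rintro _ ⟨f, _, rfl⟩
    exact pb_ge f
  set FD := Finset.univ.filter (fun f : VV N => f ∈ D) with hFD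
  set FG := Finset.univ.filter (fun f : VV N => f ∈ geS N b) with hFG
  have sub0 : ∀ R : Submodule (ZMod 2) (VV N), Sub0 (Finset.univ.filter (fun f : VV N => f ∈ R)) := by
    intro R
    refine ⟨Finset.mem_filter.2 ⟨Finset.mem_univ _, R.zero_mem⟩, fun x hx z hz => ?_⟩
    exact Finset.mem_filter.2 ⟨Finset.mem_univ _,
      R.add_mem (Finset.mem_filter.1 hx).2 (Finset.mem_filter.1 hz).2⟩
  have hcD : (FD.card : ℝ) = (2 : ℝ) ^ Module.finrank (ZMod 2) D := by
    rw [hFD, card_filter_eq]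
    push_cast
    rfl
  have hcG : (FG.card : ℝ) = (2 : ℝ) ^ (N - b) := by
    rw [hFG, card_geS hb]
    push_cast
    rfl
  have h1 : ∑ ψ ∈ FG, ∑ f ∈ FD, chi (ψ ⬝ᵥ f) =
      (FD.card : ℝ) * (((annF S).filter (fun ψ => ψ ∈ geS N b)).card : ℝ) := by
    have e1 : ∀ ψ ∈ FG, ∑ f ∈ FD, chi (ψ ⬝ᵥ f) = if ψ ∈ annF S then (FD.card : ℝ) else 0 := by
      intro ψ hψ
      rw [char_sum FD (sub0 D)]
      refine if_congr ?_ rfl rfl
      rw [mem_annF]
      have hψ' := (Finset.mem_filter.1 hψ).2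
      constructor
      · intro h f hf
        have h2 := h (pb N b f) (Finset.mem_filter.2 ⟨Finset.mem_univ _, f, hf, rfl⟩)
        have h3 := dot_ge_lt (sub_pb (b := b) f) hψ'
        rw [dotProduct_comm] at h2
        rw [add_dotProduct, h2, add_zero] at h3
        exact h3
      · intro h f hf
        obtain ⟨g, hg, rfl⟩ := (Finset.mem_filter.1 hf).2
        have h3 := dot_ge_lt (sub_pb (b := b) g) hψ'
        rw [add_dotProduct, h g hg, zero_add] at h3
        rw [dotProduct_comm]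
        exact h3
    rw [Finset.sum_congr rfl e1, ← Finset.sum_filter, Finset.sum_const, nsmul_eq_mul, mul_comm]
    congr 2
    have : FG.filter (fun ψ => ψ ∈ annF S) = (annF S).filter (fun ψ => ψ ∈ geS N b) := by
      ext ψ
      simp only [hFG, Finset.mem_filter, Finset.mem_univ, true_and]
      tauto
    rw [this]
  have h2 : ∑ ψ ∈ FG, ∑ f ∈ FD, chi (ψ ⬝ᵥ f) = (FG.card : ℝ) := by
    rw [Finset.sum_comm]
    have e1 : ∀ f ∈ FD, ∑ ψ ∈ FG, chi (ψ ⬝ᵥ f) = if f = 0 then (FG.card : ℝ) else 0 := by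
      intro f hf
      have hf' := hDge (Finset.mem_filter.1 hf).2
      have e2 : ∑ ψ ∈ FG, chi (ψ ⬝ᵥ f) = ∑ ψ ∈ FG, chi (f ⬝ᵥ ψ) :=
        Finset.sum_congr rfl fun ψ _ => by rw [dotProduct_comm]
      rw [e2, char_sum FG (sub0 _)]
      refine if_congr ?_ rfl rfl
      constructor
      · intro h
        funext j
        by_cases hj : j.val < b
        · exact hf' j hj
        · have h3 := h (ee N j.val) (Finset.mem_filter.2 ⟨Finset.mem_univ _,
            ee_mem_ge (by omega)⟩)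
          rw [dotProduct_comm, ee_dot j.isLt] at h3
          exact h3
      · intro h ψ _
        rw [h, zero_dotProduct]
    rw [Finset.sum_congr rfl e1, Finset.sum_ite_eq', if_pos]
    exact Finset.mem_filter.2 ⟨Finset.mem_univ _, D.zero_mem⟩
  rw [← hcD, ← hcG, ← h2, h1]

open Classical in
/-- FIXVEC for the hidden relations of the row `r`, continuous time -/
theorem fixvec_V {t : ℝ} (ht : 0 ≤ t) {r b : Fin N} (hrb : r < b) {y : VV N}
    (hy : ∀ j : Fin N, j.val < b.val → y j = 0) (hb : y b = 1) :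
    EA N t (fun s => if y ∈ s.2 r then
      (2 : ℝ) ^ (N - b.val) / (((s.2 r).filter (fun ψ => ψ ∈ geS N b.val)).card : ℝ) else 0) ≤ 1 := by
  have hv : Val (ltS N b.val) b.val y := ⟨le_rfl, hy, by rw [ee_dot b.isLt]; exact hb⟩
  have hr : r.val + 1 ≤ b.val := hrb
  have := fixV_general hv hr ht
  have e := EA_eq_vL r t (fun x : YS N => if y ∈ x.2 then
      (2 : ℝ) ^ (N - b.val) / ((x.2.filter (fun ψ => ψ ∈ geS N b.val)).card : ℝ) else 0)
  dsimp only at e
  rw [e]
  refine le_trans (le_of_eq ?_) this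
  congr 1
  funext x
  rw [mm_sup_lt _ _ hy]
  refine if_congr mem_annF ?_ rfl
  have h1 := double_count x.2 (b := b.val) b.isLt.le
  rw [← h1]
  have h2 : (((annF x.2).filter (fun ψ => ψ ∈ geS N b.val)).card : ℝ) ≠ 0 := by
    intro h3
    rw [h3, mul_zero] at h1
    exact (pow_ne_zero _ (two_ne_zero)) h1.symm
  rw [mul_div_assoc, div_self h2, mul_one]

end Pool.Agent.CutFull.Fix
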